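import Pool.Agent.Helper32.FS.FO6

/-!
# Counting the finitely stable graphs in each first-order theory
-/

open FirstOrder FirstOrder.Language

namespace Pool.Agent.Results.MP_b2ca36_co.FirstOrderTheories

open Pool.Agent.FinStab Pool.Agent.FinStab.FO

/-- Let `G` be a graph on `ℕ`. Some finitely stable graph on `ℕ` has the same first-order theory
as `G` if and only if changing the status of any single pair of vertices does not change the
theory of `G`, and then `G` has a finitely stable elementary extension on `ℕ`. If `G` is the Rado
graph, then it is finitely stable and the only graph on `ℕ` with its theory up to isomorphism. In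
all other cases there are either none or continuum many pairwise non-isomorphic finitely stable
graphs on `ℕ` with the theory of `G`. -/
theorem _root_.Pool.Agent.Results.MP_b2ca36_co.FirstOrderTheories.result (G : SimpleGraph ℕ) :
    ((∃ H : SimpleGraph ℕ, FinitelyStable H ∧ SameTheory H G) ↔
      ∀ a b, a ≠ b → SameTheory (flip G {s(a, b)}) G) ∧
    ((∃ H : SimpleGraph ℕ, FinitelyStable H ∧ SameTheory H G) →
      ∃ H : SimpleGraph ℕ, FinitelyStable H ∧
        Nonempty (@ElementaryEmbedding Language.graph ℕ ℕ G.structure H.structure)) ∧
    (HasExt G → FinitelyStable G ∧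
      ∀ H : SimpleGraph ℕ, SameTheory H G → Nonempty (H ≃g G)) ∧
    (¬ HasExt G → (∃ H : SimpleGraph ℕ, FinitelyStable H ∧ SameTheory H G) →
      ∃ H : Set ℕ → SimpleGraph ℕ, (∀ S, FinitelyStable (H S) ∧ SameTheory (H S) G) ∧
        ∀ S T, S ≠ T → IsEmpty (H S ≃g H T)) :=
  main G

end Pool.Agent.Results.MP_b2ca36_co.FirstOrderTheories
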