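import Pool.Agent.Helper32.FS.GK3

/-!
# Highly homogeneous finitely stable graphs
-/

namespace Pool.Agent.Results.MP_b2ca36_co.HomogeneousExamples

open Pool.Agent.FinStab Pool.Agent.FinStab.FO Pool.Agent.FinStab.Gk

/-- For every `k` there are continuum many pairwise non-isomorphic finitely stable graphs on `ℕ`,
all with the same first-order theory, in which every isomorphism between induced subgraphs with
at most `k` vertices extends to an automorphism. -/
theorem _root_.Pool.Agent.Results.MP_b2ca36_co.HomogeneousExamples.result (k : ℕ) :
    ∃ H : Set ℕ → SimpleGraph ℕ,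
      (∀ S, FinitelyStable (H S) ∧ KHom k (H S)) ∧
      (∀ S T, SameTheory (H S) (H T)) ∧
      ∀ S T, S ≠ T → IsEmpty (H S ≃g H T) :=
  main_homog k

end Pool.Agent.Results.MP_b2ca36_co.HomogeneousExamples
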