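import Pool.Agent.Helper32.FS.Iso

/-!
# Isomorphism of finitely stable graphs is as complicated as isomorphism of countable graphs
-/

namespace Pool.Agent.Results.MP_b2ca36_co.IsomorphismComplete

open Pool.Agent.FinStab

/-- There is a continuous map from codes of graphs on `ℕ` to codes of graphs on `ℕ` whose
values are codes of finitely stable graphs in which every vertex has infinitely many neighbours
and infinitely many non-neighbours, such that two graphs are isomorphic iff their images are. -/
theorem _root_.Pool.Agent.Results.MP_b2ca36_co.IsomorphismComplete.result :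
    ∃ f : (ℕ → ℕ → Bool) → (ℕ → ℕ → Bool), Continuous f ∧
      (∀ a, FinitelyStable (graphOf (f a))) ∧
      (∀ a v, {w | (graphOf (f a)).Adj v w}.Infinite ∧
        {w | ¬ (graphOf (f a)).Adj v w}.Infinite) ∧
      ∀ a b, Nonempty (graphOf a ≃g graphOf b) ↔
        Nonempty (graphOf (f a) ≃g graphOf (f b)) :=
  exists_iso_reduction

end Pool.Agent.Results.MP_b2ca36_co.IsomorphismComplete
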