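import Pool.Agent.Helper32.FS.Logic

/-!
# The finitely stable graphs form a complete analytic class
-/

open Set MeasureTheory

namespace Pool.Agent.Results.MP_b2ca36_co.NoBorelCharacterisation

open Pool.Agent.FinStab

/-- Graphs on `ℕ` are coded by points `a` of the space `ℕ → ℕ → Bool`. The set of codes of
finitely stable graphs is analytic and every analytic subset of Baire space is the preimage of it
under a continuous map, which can be chosen so that in all graphs in its range every vertex has
infinitely many neighbours and infinitely many non-neighbours. So it is not Borel, and no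
formula of the infinitary logic with countable conjunctions characterises the finitely stable
graphs, even with parameters and even among the graphs in which every vertex has infinitely many
neighbours and infinitely many non-neighbours. -/
theorem _root_.Pool.Agent.Results.MP_b2ca36_co.NoBorelCharacterisation.result :
    AnalyticSet {a : ℕ → ℕ → Bool | FinitelyStable (graphOf a)} ∧
    (∀ A : Set (ℕ → ℕ), AnalyticSet A → ∃ f : (ℕ → ℕ) → ℕ → ℕ → Bool, Continuous f ∧
      (∀ x v, {w | (graphOf (f x)).Adj v w}.Infinite ∧ {w | ¬ (graphOf (f x)).Adj v w}.Infinite) ∧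
      ∀ x, x ∈ A ↔ FinitelyStable (graphOf (f x))) ∧
    ¬ MeasurableSet {a : ℕ → ℕ → Bool | FinitelyStable (graphOf a)} ∧
    ∀ (φ : Fml) (p : ℕ → ℕ), ¬ ∀ G : SimpleGraph ℕ,
      (∀ v, {w | G.Adj v w}.Infinite ∧ {w | ¬ G.Adj v w}.Infinite) →
        (FinitelyStable G ↔ Sat G φ p) :=
  ⟨analytic_stable, exists_reduction, not_measurable_stable, no_formula_infinite⟩

end Pool.Agent.Results.MP_b2ca36_co.NoBorelCharacterisation
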